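import Mathlib
import Pool.Agent.Helper1.RG.Defs

/-!
# RG, row L1: the conditional law of a fifth root
-/

set_option autoImplicit false

open MeasureTheory Complex
open scoped ComplexConjugate

namespace Pool.Agent.Helper38.RG

open Pool.Agent.Helper1.RG

/-! ### deterministic part -/

theorem sum5 (z : ℂ) (hz : z ^ 5 = 1) :
    ∑ b ∈ Finset.range 5, z ^ b = if z = 1 then 5 else 0 := by
  split_ifs with h
  · subst h; simp
  · have h1 := geom_sum_mul z 5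
    rw [hz, sub_self] at h1
    rcases mul_eq_zero.1 h1 with h2 | h2
    · exact h2
    · exact absurd (sub_eq_zero.1 h2) h

/-- a primitive fifth root of unity -/
noncomputable def om : ℂ := Complex.exp (2 * Real.pi * I / (5 : ℕ))

theorem om_prim : IsPrimitiveRoot om 5 := Complex.isPrimitiveRoot_exp 5 (by norm_num)

theorem norm_om : ‖om‖ = 1 := om_prim.norm'_eq_one (by norm_num)

theorem dec_point (G : ℂ → ℂ) (c z : ℂ) (hc : c ≠ 0) (hz : z ^ 5 = c ^ 5) :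
    G z = ∑ b ∈ Finset.range 5,
      ((1 / 5 : ℂ) * ∑ h ∈ Finset.range 5, G (c * om ^ h) * ((c * om ^ h)⁻¹) ^ b) * z ^ b := by
  have hom : om ≠ 0 := om_prim.ne_zero (by norm_num)
  have hw : ∀ h : ℕ, c * om ^ h ≠ 0 := fun h => mul_ne_zero hc (pow_ne_zero _ hom)
  have h1 : ∑ b ∈ Finset.range 5,
      ((1 / 5 : ℂ) * ∑ h ∈ Finset.range 5, G (c * om ^ h) * ((c * om ^ h)⁻¹) ^ b) * z ^ b =
      (1 / 5 : ℂ) * ∑ h ∈ Finset.range 5, G (c * om ^ h) *
        ∑ b ∈ Finset.range 5, ((c * om ^ h)⁻¹ * z) ^ b := by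
    simp only [Finset.mul_sum, Finset.sum_mul]
    rw [Finset.sum_comm]
    refine Finset.sum_congr rfl fun h _ => Finset.sum_congr rfl fun b _ => ?_
    rw [mul_pow]; ring
  have h5 : ∀ h : ℕ, ((c * om ^ h)⁻¹ * z) ^ 5 = 1 := by
    intro h
    rw [mul_pow, hz, inv_pow, mul_pow, ← pow_mul, mul_comm h 5, pow_mul, om_prim.pow_eq_one,
      one_pow, mul_one]
    exact inv_mul_cancel₀ (pow_ne_zero _ hc)
  have h2 : (c⁻¹ * z) ^ 5 = 1 := by
    rw [mul_pow, hz, inv_pow]; exact inv_mul_cancel₀ (pow_ne_zero _ hc)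
  obtain ⟨h0, hh0, hz0⟩ := om_prim.eq_pow_of_pow_eq_one h2
  have hz1 : z = c * om ^ h0 := by
    rw [hz0, ← mul_assoc, mul_inv_cancel₀ hc, one_mul]
  rw [h1, Finset.sum_eq_single h0]
  · rw [sum5 _ (h5 h0), if_pos]
    · rw [← hz1]; ring
    · rw [hz1]; exact inv_mul_cancel₀ (hw h0)
  · intro h hh hne
    rw [sum5 _ (h5 h), if_neg, mul_zero]
    intro h3
    have h4 : z = c * om ^ h := ((inv_mul_eq_one₀ (hw h)).1 h3).symm
    rw [hz1] at h4
    have h6 := mul_left_cancel₀ hc h4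
    exact hne (om_prim.pow_inj (Finset.mem_range.1 hh) hh0 h6.symm)
  · intro h
    exact absurd (Finset.mem_range.2 hh0) h

theorem dec {Ω : Type} [m : MeasurableSpace Ω] (ζ κ Z : Ω → ℂ) (C : ℝ) (hC0 : 0 ≤ C)
    (hζ5 : ∀ χ, ζ χ ^ 5 = κ χ) (hκ1 : ∀ χ, ‖κ χ‖ = 1) (hκ : Measurable κ)
    (hZ : Measurable[m ⊔ MeasurableSpace.comap ζ (borel ℂ)] Z) (hC : ∀ χ, ‖Z χ‖ ≤ C) :
    ∃ g : ℕ → Ω → ℂ, (∀ b, Measurable (g b)) ∧ (∀ b χ, ‖g b χ‖ ≤ C) ∧
      ∀ χ, Z χ = ∑ b ∈ Finset.range 5, g b χ * ζ χ ^ b := by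
  classical
  have hsp : (m ⊔ MeasurableSpace.comap ζ (borel ℂ)) =
      MeasurableSpace.comap (fun χ => (χ, ζ χ)) (m.prod (borel ℂ)) := by
    rw [MeasurableSpace.prod, MeasurableSpace.comap_sup, MeasurableSpace.comap_comp,
      MeasurableSpace.comap_comp]
    congr 1
    exact (MeasurableSpace.comap_id).symm
  rw [hsp] at hZ
  obtain ⟨F, hF, hFZ⟩ := hZ.exists_eq_measurable_comp
  set F' : Ω × ℂ → ℂ := fun y => if ‖F y‖ ≤ C then F y else 0 with hF'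
  have hF'm : Measurable F' := by
    refine Measurable.ite ?_ hF measurable_const
    exact measurableSet_le hF.norm measurable_const
  have hF'b : ∀ y, ‖F' y‖ ≤ C := by
    intro y; simp only [hF']; split_ifs with h
    · exact h
    · simpa using hC0
  have hF'Z : ∀ χ, Z χ = F' (χ, ζ χ) := by
    intro χ
    have h1 : Z χ = F (χ, ζ χ) := congrFun hFZ χ
    simp only [hF']
    rw [if_pos (by rw [← h1]; exact hC χ), h1]
  set c : Ω → ℂ := fun χ => Complex.exp (((Complex.arg (κ χ) / 5 : ℝ) : ℂ) * I) with hc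
  have hcm : Measurable c := by
    refine Complex.measurable_exp.comp (Measurable.mul_const ?_ _)
    exact Complex.measurable_ofReal.comp ((Complex.measurable_arg.comp hκ).div_const _)
  have hcn : ∀ χ, ‖c χ‖ = 1 := fun χ => Complex.norm_exp_ofReal_mul_I _
  have hc5 : ∀ χ, c χ ^ 5 = κ χ := by
    intro χ
    simp only [hc]
    rw [← Complex.exp_nat_mul]
    have h1 : ((5 : ℕ) : ℂ) * (((Complex.arg (κ χ) / 5 : ℝ) : ℂ) * I) = (Complex.arg (κ χ) : ℂ) * I := by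
      push_cast; ring
    rw [h1]
    have h2 := Complex.norm_mul_exp_arg_mul_I (κ χ)
    rw [hκ1 χ] at h2
    simpa using h2
  refine ⟨fun b χ => (1 / 5 : ℂ) * ∑ h ∈ Finset.range 5,
    F' (χ, c χ * om ^ h) * ((c χ * om ^ h)⁻¹) ^ b, ?_, ?_, ?_⟩
  · intro b
    refine Measurable.const_mul ?_ _
    refine Finset.measurable_sum _ fun h _ => ?_
    have h1 : Measurable fun χ => c χ * om ^ h := hcm.mul_const _
    exact (hF'm.comp (measurable_id.prodMk h1)).mul (h1.inv.pow_const b)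
  · intro b χ
    rw [norm_mul]
    have h1 : ‖∑ h ∈ Finset.range 5, F' (χ, c χ * om ^ h) * ((c χ * om ^ h)⁻¹) ^ b‖ ≤ 5 * C := by
      refine (norm_sum_le _ _).trans ?_
      have h2 : ∀ h ∈ Finset.range 5, ‖F' (χ, c χ * om ^ h) * ((c χ * om ^ h)⁻¹) ^ b‖ ≤ C := by
        intro h _
        rw [norm_mul, norm_pow, norm_inv, norm_mul, norm_pow, norm_om, hcn χ]
        simpa using hF'b _
      refine (Finset.sum_le_sum h2).trans ?_
      simp
    have h3 : ‖(1 / 5 : ℂ)‖ = 1 / 5 := by norm_num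
    rw [h3]; linarith
  · intro χ
    rw [hF'Z χ]
    have hc0 : c χ ≠ 0 := by
      intro h; have := hcn χ; rw [h] at this; simp at this
    exact dec_point (fun z => F' (χ, z)) (c χ) (ζ χ) hc0 (by rw [hζ5, hc5])

/-! ### probability -/

section main

variable {Ω : Type} {m m' mΩ : MeasurableSpace Ω} (P : Measure Ω) [IsProbabilityMeasure P]

theorem bdd_int (f : Ω → ℂ) (C : ℝ) (hf : Measurable f) (hb : ∀ χ, ‖f χ‖ ≤ C) :
    Integrable f P :=
  Integrable.of_bound hf.aestronglyMeasurable C (Filter.Eventually.of_forall hb)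

theorem pull (hm : m ≤ mΩ) (f g : Ω → ℂ) (C D : ℝ) (hf : Measurable[m] f) (hfb : ∀ χ, ‖f χ‖ ≤ C)
    (hg : Measurable g) (hgb : ∀ χ, ‖g χ‖ ≤ D) (hC : 0 ≤ C) :
    P[fun χ => f χ * g χ | m] =ᵐ[P] fun χ => f χ * (P[g | m]) χ := by
  refine condExp_bilin_of_aestronglyMeasurable_left (ContinuousLinearMap.mul ℝ ℂ)
    (f := f) (g := g) ?_ ?_ (bdd_int P g D hg hgb)
  · exact (hf.stronglyMeasurable).aestronglyMeasurable
  · refine bdd_int P _ (C * D) ((hf.mono hm le_rfl).mul hg) fun χ => ?_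
    simp only [ContinuousLinearMap.mul_apply', norm_mul]
    exact mul_le_mul (hfb χ) (hgb χ) (norm_nonneg _) hC

theorem normE (f : Ω → ℂ) (hm : m ≤ mΩ) (hb : ∀ χ, ‖f χ‖ = 1) :
    ∀ᵐ χ ∂P, ‖(P[f | m]) χ‖ ≤ 1 := by
  have h1 := norm_condExp_le (μ := P) (m := m) f
  have h2 : (fun χ => ‖f χ‖) = fun _ => (1 : ℝ) := funext hb
  rw [h2, condExp_const hm] at h1
  exact h1

theorem alg5 (z k : ℂ) (hz : ‖z‖ = 1) (hzk : z ^ 5 = k) (g E : ℕ → ℂ)
    (hE : ∀ j < 4, E (j + 5) = k * E j) :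
    ∑ a ∈ Finset.range 5, conj (z ^ a) * ∑ b ∈ Finset.range 5, g b * E (a + b) =
      (∑ b ∈ Finset.range 5, g b * z ^ b) * ∑ a ∈ Finset.range 5, conj (z ^ a) * E a := by
  have hzz : conj z * z = 1 := by
    rw [Complex.conj_mul', hz]; simp
  have hD : ∀ j < 4, conj (z ^ (j + 5)) * E (j + 5) = conj (z ^ j) * E j := by
    intro j hj
    rw [hE j hj, pow_add, hzk, map_mul, ← hzk]
    have h1 : conj (z ^ 5) * z ^ 5 = 1 := by
      rw [map_pow, ← mul_pow, hzz, one_pow]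
    calc conj (z ^ j) * conj (z ^ 5) * (z ^ 5 * E j) = conj (z ^ j) * (conj (z ^ 5) * z ^ 5) * E j := by ring
      _ = conj (z ^ j) * E j := by rw [h1, mul_one]
  have hb : ∀ b < 5, ∑ a ∈ Finset.range 5, conj (z ^ (a + b)) * E (a + b) =
      ∑ a ∈ Finset.range 5, conj (z ^ a) * E a := by
    intro b hb
    have d0 := hD 0 (by norm_num)
    have d1 := hD 1 (by norm_num)
    have d2 := hD 2 (by norm_num)
    have d3 := hD 3 (by norm_num)
    simp only [Finset.sum_range_succ, Finset.sum_range_zero, zero_add] at *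
    interval_cases b <;> norm_num at * <;> simp only [d0, d1, d2, d3] <;> ring
  have hs : ∀ a b : ℕ, conj (z ^ a) * (g b * E (a + b)) =
      g b * z ^ b * (conj (z ^ (a + b)) * E (a + b)) := by
    intro a b
    have h1 : conj (z ^ b) * z ^ b = 1 := by
      rw [map_pow, ← mul_pow, hzz, one_pow]
    rw [pow_add, map_mul]
    calc conj (z ^ a) * (g b * E (a + b)) = conj (z ^ a) * (g b * E (a + b)) * (conj (z ^ b) * z ^ b) := by
          rw [h1, mul_one]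
      _ = _ := by ring
  simp only [Finset.mul_sum, hs]
  rw [Finset.sum_comm, ← Finset.mul_sum, Finset.sum_mul]
  refine Finset.sum_congr rfl fun b hbm => ?_
  rw [← Finset.mul_sum, hb b (Finset.mem_range.1 hbm)]

theorem key (ζ κ : Ω → ℂ) (h1 : m ≤ m') (h2 : m' ≤ mΩ)
    (hζ1 : ∀ χ, ‖ζ χ‖ = 1) (hζ5 : ∀ χ, ζ χ ^ 5 = κ χ) (hκ : Measurable[m] κ)
    (hm' : m' = m ⊔ MeasurableSpace.comap ζ (borel ℂ)) (Z : Ω → ℂ) (C : ℝ)
    (hZ : Measurable[m'] Z) (hC : ∀ χ, ‖Z χ‖ ≤ C) :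
    ∀ᵐ χ ∂P, ∑ a ∈ Finset.range 5, conj (ζ χ ^ a) * (P[fun χ => ζ χ ^ a * Z χ | m]) χ =
      Z χ * ∑ a ∈ Finset.range 5, conj (ζ χ ^ a) * (P[fun χ => ζ χ ^ a | m]) χ := by
  have hC0 : 0 ≤ C := by
    obtain ⟨χ⟩ : Nonempty Ω := P.nonempty_of_neZero
    exact (norm_nonneg _).trans (hC χ)
  have hζm' : Measurable[m'] ζ := by
    rw [measurable_iff_comap_le, hm']; exact le_sup_right
  have hζ : Measurable ζ := hζm'.mono h2 le_rfl
  have hm : m ≤ mΩ := h1.trans h2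
  have hκ1 : ∀ χ, ‖κ χ‖ = 1 := fun χ => by rw [← hζ5, norm_pow, hζ1, one_pow]
  obtain ⟨g, hg, hgb, hgZ⟩ := @dec Ω m ζ κ Z C hC0 hζ5 hκ1 hκ (by rw [← hm']; exact hZ) hC
  have hpow : ∀ k : ℕ, Measurable fun χ => ζ χ ^ k := fun k => hζ.pow_const k
  have hpow1 : ∀ (k : ℕ) (χ : Ω), ‖ζ χ ^ k‖ ≤ 1 := fun k χ => by
    rw [norm_pow, hζ1, one_pow]
  have hE : ∀ j : ℕ, P[fun χ => ζ χ ^ (j + 5) | m] =ᵐ[P]
      fun χ => κ χ * (P[fun χ => ζ χ ^ j | m]) χ := by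
    intro j
    have e1 : (fun χ => ζ χ ^ (j + 5)) = fun χ => κ χ * ζ χ ^ j := by
      funext χ; rw [pow_add, hζ5, mul_comm]
    rw [e1]
    exact pull P hm κ (fun χ => ζ χ ^ j) 1 1 hκ (fun χ => (hκ1 χ).le) (hpow j) (hpow1 j) zero_le_one
  have hΦ : ∀ a : ℕ, P[fun χ => ζ χ ^ a * Z χ | m] =ᵐ[P]
      fun χ => ∑ b ∈ Finset.range 5, g b χ * (P[fun χ => ζ χ ^ (a + b) | m]) χ := by
    intro a
    have e1 : (fun χ => ζ χ ^ a * Z χ) =
        ∑ b ∈ Finset.range 5, fun χ => g b χ * ζ χ ^ (a + b) := by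
      funext χ
      rw [Finset.sum_apply, hgZ χ, Finset.mul_sum]
      refine Finset.sum_congr rfl fun b _ => ?_
      rw [pow_add]; ring
    rw [e1]
    have e2 := condExp_finset_sum (μ := P) (s := Finset.range 5)
      (f := fun b χ => g b χ * ζ χ ^ (a + b)) (fun b _ => by
        refine bdd_int P _ (C * 1) (((hg b).mono hm le_rfl).mul (hpow _)) fun χ => ?_
        rw [norm_mul]
        exact mul_le_mul (hgb b χ) (hpow1 _ χ) (norm_nonneg _) hC0) m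
    refine e2.trans ?_
    have e3 : ∀ b : ℕ, P[fun χ => g b χ * ζ χ ^ (a + b) | m] =ᵐ[P]
        fun χ => g b χ * (P[fun χ => ζ χ ^ (a + b) | m]) χ := fun b =>
      pull P hm (g b) (fun χ => ζ χ ^ (a + b)) C 1 (hg b) (hgb b) (hpow _) (hpow1 _) hC0
    filter_upwards [ae_all_iff.2 e3] with χ hχ
    rw [Finset.sum_apply]
    exact Finset.sum_congr rfl fun b _ => hχ b
  filter_upwards [ae_all_iff.2 hE, ae_all_iff.2 hΦ] with χ hχE hχΦ
  have e4 := alg5 (ζ χ) (κ χ) (hζ1 χ) (hζ5 χ) (fun b => g b χ)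
    (fun k => (P[fun χ => ζ χ ^ k | m]) χ) (fun j _ => hχE j)
  rw [hgZ χ, ← e4]
  exact Finset.sum_congr rfl fun a _ => by rw [hχΦ a]

/-- Plancherel on `ℤ/5` -/
theorem planch (ζ κ : Ω → ℂ) (h1 : m ≤ m') (h2 : m' ≤ mΩ)
    (hζ1 : ∀ χ, ‖ζ χ‖ = 1) (hζ5 : ∀ χ, ζ χ ^ 5 = κ χ) (hκ : Measurable[m] κ)
    (hm' : m' = m ⊔ MeasurableSpace.comap ζ (borel ℂ)) (Z : Ω → ℂ) (C : ℝ)
    (hZ : Measurable[m'] Z) (hC : ∀ χ, ‖Z χ‖ ≤ C) :
    ∑ a ∈ Finset.range 5, ∫ χ, ‖(P[fun χ => ζ χ ^ a * Z χ | m]) χ‖ ^ 2 ∂P =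
      5 * ∫ χ, ‖Z χ‖ ^ 2 * ((1 / 5 : ℝ) * ∑ a ∈ Finset.range 5,
        (conj (ζ χ ^ a) * (P[fun χ => ζ χ ^ a | m]) χ).re) ∂P := by
  have hC0 : 0 ≤ C := by
    obtain ⟨χ⟩ : Nonempty Ω := P.nonempty_of_neZero
    exact (norm_nonneg _).trans (hC χ)
  have hm : m ≤ mΩ := h1.trans h2
  have hζm' : Measurable[m'] ζ := by
    rw [measurable_iff_comap_le, hm']; exact le_sup_right
  have hζ : Measurable ζ := hζm'.mono h2 le_rfl
  have hZm : Measurable Z := hZ.mono h2 le_rfl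
  have hpow : ∀ k : ℕ, Measurable fun χ => ζ χ ^ k := fun k => hζ.pow_const k
  have hpow1 : ∀ (k : ℕ) (χ : Ω), ‖ζ χ ^ k‖ ≤ 1 := fun k χ => by
    rw [norm_pow, hζ1, one_pow]
  set Φ : ℕ → Ω → ℂ := fun a => P[fun χ => ζ χ ^ a * Z χ | m] with hΦ
  set E : ℕ → Ω → ℂ := fun a => P[fun χ => ζ χ ^ a | m] with hE
  have hf : ∀ a : ℕ, Measurable fun χ => ζ χ ^ a * Z χ := fun a => (hpow a).mul hZm
  have hfb : ∀ (a : ℕ) (χ : Ω), ‖ζ χ ^ a * Z χ‖ ≤ C := fun a χ => by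
    rw [norm_mul]
    calc ‖ζ χ ^ a‖ * ‖Z χ‖ ≤ 1 * C := mul_le_mul (hpow1 a χ) (hC χ) (norm_nonneg _) zero_le_one
      _ = C := one_mul C
  have hcΦ : ∀ a, AEStronglyMeasurable[m] (fun χ => conj (Φ a χ)) P := fun a =>
    (RCLike.continuous_conj.comp_stronglyMeasurable stronglyMeasurable_condExp).aestronglyMeasurable
  have hiΦ : ∀ a, Integrable (fun χ => conj (Φ a χ)) P := fun a =>
    (RCLike.conjCLE.toContinuousLinearMap.integrable_comp (integrable_condExp (f := fun χ => ζ χ ^ a * Z χ)))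
  have hprod : ∀ a, Integrable (fun χ => conj (Φ a χ) * (ζ χ ^ a * Z χ)) P := fun a =>
    (hiΦ a).mul_bdd (hf a).aestronglyMeasurable (Filter.Eventually.of_forall (hfb a))
  have s1 : ∀ a, ∫ χ, conj (Φ a χ) * (ζ χ ^ a * Z χ) ∂P = ((∫ χ, ‖Φ a χ‖ ^ 2 ∂P : ℝ) : ℂ) := by
    intro a
    rw [← integral_condExp hm (f := fun χ => conj (Φ a χ) * (ζ χ ^ a * Z χ))]
    have e1 : P[fun χ => conj (Φ a χ) * (ζ χ ^ a * Z χ) | m] =ᵐ[P]
        fun χ => conj (Φ a χ) * Φ a χ :=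
      condExp_bilin_of_aestronglyMeasurable_left (ContinuousLinearMap.mul ℝ ℂ)
        (f := fun χ => conj (Φ a χ)) (g := fun χ => ζ χ ^ a * Z χ) (hcΦ a) (hprod a)
        (bdd_int P _ C (hf a) (hfb a))
    rw [integral_congr_ae e1, ← integral_complex_ofReal]
    refine integral_congr_ae (Filter.Eventually.of_forall fun χ => ?_)
    simp only [Complex.conj_mul']
    push_cast; rfl
  have hk := key P ζ κ h1 h2 hζ1 hζ5 hκ hm' Z C hZ hC
  have s2 : ((∑ a ∈ Finset.range 5, ∫ χ, ‖Φ a χ‖ ^ 2 ∂P : ℝ) : ℂ) =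
      ∫ χ, ((‖Z χ‖ ^ 2 : ℝ) : ℂ) * conj (∑ a ∈ Finset.range 5, conj (ζ χ ^ a) * E a χ) ∂P := by
    rw [Complex.ofReal_sum]
    simp only [← s1]
    rw [← integral_finset_sum _ fun a _ => hprod a]
    refine integral_congr_ae ?_
    filter_upwards [hk] with χ hχ
    have e2 : ∑ a ∈ Finset.range 5, conj (Φ a χ) * (ζ χ ^ a * Z χ) =
        conj (∑ a ∈ Finset.range 5, conj (ζ χ ^ a) * Φ a χ) * Z χ := by
      rw [map_sum, Finset.sum_mul]
      refine Finset.sum_congr rfl fun a _ => ?_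
      rw [map_mul, Complex.conj_conj]; ring
    rw [e2, hχ, map_mul]
    have e3 : conj (Z χ) * Z χ = ((‖Z χ‖ ^ 2 : ℝ) : ℂ) := by
      rw [Complex.conj_mul']; push_cast; rfl
    rw [← e3]; ring
  have hY : Integrable (fun χ => conj (∑ a ∈ Finset.range 5, conj (ζ χ ^ a) * E a χ)) P := by
    have hY0 : Integrable (fun χ => ∑ a ∈ Finset.range 5, conj (ζ χ ^ a) * E a χ) P := by
      refine integrable_finset_sum _ fun a _ => ?_
      refine Integrable.bdd_mul (c := 1) integrable_condExp ?_ ?_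
      · exact (RCLike.continuous_conj.measurable.comp (hpow a)).aestronglyMeasurable
      · exact Filter.Eventually.of_forall fun χ => by
          rw [RCLike.norm_conj]; exact hpow1 a χ
    exact RCLike.conjCLE.toContinuousLinearMap.integrable_comp hY0
  have hW : Integrable (fun χ => ((‖Z χ‖ ^ 2 : ℝ) : ℂ) *
      conj (∑ a ∈ Finset.range 5, conj (ζ χ ^ a) * E a χ)) P := by
    refine Integrable.bdd_mul (c := C ^ 2) hY ?_ ?_
    · exact (Complex.measurable_ofReal.comp (hZm.norm.pow_const 2)).aestronglyMeasurable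
    · refine Filter.Eventually.of_forall fun χ => ?_
      rw [Complex.norm_real, Real.norm_eq_abs, abs_of_nonneg (by positivity)]
      exact pow_le_pow_left₀ (norm_nonneg _) (hC χ) 2
  have s3 := congrArg Complex.re s2
  rw [Complex.ofReal_re] at s3
  rw [s3, ← integral_const_mul]
  have s4 := integral_re hW
  have s5 : (∫ χ, ((‖Z χ‖ ^ 2 : ℝ) : ℂ) *
      conj (∑ a ∈ Finset.range 5, conj (ζ χ ^ a) * E a χ) ∂P).re =
      ∫ χ, (((‖Z χ‖ ^ 2 : ℝ) : ℂ) *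
      conj (∑ a ∈ Finset.range 5, conj (ζ χ ^ a) * E a χ)).re ∂P := s4.symm
  rw [s5]
  refine integral_congr_ae (Filter.Eventually.of_forall fun χ => ?_)
  simp only [Complex.re_ofReal_mul, Complex.conj_re, Complex.re_sum]
  ring

theorem bounds (ζ κ : Ω → ℂ) (h1 : m ≤ m') (h2 : m' ≤ mΩ)
    (hζ1 : ∀ χ, ‖ζ χ‖ = 1) (hζ5 : ∀ χ, ζ χ ^ 5 = κ χ) (hκ : Measurable[m] κ)
    (hm' : m' = m ⊔ MeasurableSpace.comap ζ (borel ℂ)) :
    ∀ᵐ χ ∂P, 0 ≤ (1 / 5 : ℝ) * ∑ a ∈ Finset.range 5,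
        (conj (ζ χ ^ a) * (P[fun χ => ζ χ ^ a | m]) χ).re ∧
      (1 / 5 : ℝ) * ∑ a ∈ Finset.range 5,
        (conj (ζ χ ^ a) * (P[fun χ => ζ χ ^ a | m]) χ).re ≤ 1 := by
  have hm : m ≤ mΩ := h1.trans h2
  have hζm' : Measurable[m'] ζ := by
    rw [measurable_iff_comap_le, hm']; exact le_sup_right
  have hζ : Measurable ζ := hζm'.mono h2 le_rfl
  have hup : ∀ᵐ χ ∂P, ∀ a : ℕ, ‖(P[fun χ => ζ χ ^ a | m]) χ‖ ≤ 1 :=
    ae_all_iff.2 fun a => normE P (fun χ => ζ χ ^ a) hm fun χ => by rw [norm_pow, hζ1, one_pow]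
  set p : Ω → ℝ := fun χ => (1 / 5 : ℝ) * ∑ a ∈ Finset.range 5,
        (conj (ζ χ ^ a) * (P[fun χ => ζ χ ^ a | m]) χ).re with hp
  have hab : ∀ᵐ χ ∂P, |p χ| ≤ 1 := by
    filter_upwards [hup] with χ hχ
    simp only [hp]
    rw [abs_mul]
    have h3 : |∑ a ∈ Finset.range 5, (conj (ζ χ ^ a) * (P[fun χ => ζ χ ^ a | m]) χ).re| ≤ 5 := by
      refine (Finset.abs_sum_le_sum_abs _ _).trans ?_
      have h4 : ∀ a ∈ Finset.range 5,
          |(conj (ζ χ ^ a) * (P[fun χ => ζ χ ^ a | m]) χ).re| ≤ 1 := by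
        intro a _
        refine (Complex.abs_re_le_norm _).trans ?_
        rw [norm_mul, RCLike.norm_conj, norm_pow, hζ1, one_pow, one_mul]
        exact hχ a
      refine (Finset.sum_le_sum h4).trans ?_
      simp
    have h5 : |(1 / 5 : ℝ)| = 1 / 5 := by norm_num
    rw [h5]; linarith
  have hpm' : Measurable[m'] p := by
    refine Measurable.const_mul ?_ _
    refine Finset.measurable_sum _ fun a _ => ?_
    refine Complex.measurable_re.comp (Measurable.mul ?_ ?_)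
    · exact RCLike.continuous_conj.measurable.comp (hζm'.pow_const a)
    · exact (stronglyMeasurable_condExp.measurable).mono h1 le_rfl
  have hpm : Measurable p := hpm'.mono h2 le_rfl
  have hlow : ∀ᵐ χ ∂P, 0 ≤ p χ := by
    classical
    set Z : Ω → ℂ := fun χ => if p χ < 0 then 1 else 0 with hZ
    have hZm : Measurable[m'] Z := by
      refine Measurable.ite ?_ measurable_const measurable_const
      exact hpm' measurableSet_Iio
    have hpl := planch P ζ κ h1 h2 hζ1 hζ5 hκ hm' Z 1 hZm (fun χ => by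
      simp only [hZ]; split_ifs <;> simp)
    have h0 : 0 ≤ ∫ χ, ‖Z χ‖ ^ 2 * p χ ∂P := by
      have h6 : (0 : ℝ) ≤ ∑ a ∈ Finset.range 5, ∫ χ, ‖(P[fun χ => ζ χ ^ a * Z χ | m]) χ‖ ^ 2 ∂P :=
        Finset.sum_nonneg fun a _ => integral_nonneg fun χ => by positivity
      rw [hpl] at h6
      linarith
    have h7 : ∀ χ, 0 ≤ -(‖Z χ‖ ^ 2 * p χ) := by
      intro χ
      simp only [hZ]
      split_ifs with h
      · simp; linarith
      · simp
    have hint : Integrable (fun χ => ‖Z χ‖ ^ 2 * p χ) P := by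
      refine Integrable.of_bound (((hZm.mono h2 le_rfl).norm.pow_const 2).mul hpm).aestronglyMeasurable 1 ?_
      filter_upwards [hab] with χ hχ
      rw [norm_mul, norm_pow, norm_norm, Real.norm_eq_abs]
      have h8 : ‖Z χ‖ ≤ 1 := by simp only [hZ]; split_ifs <;> simp
      calc ‖Z χ‖ ^ 2 * |p χ| ≤ 1 ^ 2 * 1 := by
            exact mul_le_mul (pow_le_pow_left₀ (norm_nonneg _) h8 2) hχ (abs_nonneg _) (by norm_num)
        _ = 1 := by norm_num
    have h9 : ∫ χ, -(‖Z χ‖ ^ 2 * p χ) ∂P = 0 := by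
      refine le_antisymm ?_ (integral_nonneg h7)
      rw [integral_neg]; linarith
    have h10 := (integral_eq_zero_iff_of_nonneg h7 hint.neg).1 h9
    filter_upwards [h10] with χ hχ
    by_contra hneg
    have hneg' : p χ < 0 := not_le.1 hneg
    have h11 : Z χ = 1 := by simp only [hZ]; rw [if_pos hneg']
    simp only [h11, norm_one, one_pow, one_mul, Pi.zero_apply] at hχ
    linarith
  filter_upwards [hab, hlow] with χ h3 h4
  exact ⟨h4, (abs_le.1 h3).2⟩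

end main

theorem st_L1 : ST_L1 := by
  intro P hP m m' x h1 h2 hκ hm'
  have hev : ∀ a : ℕ, ev ((a : ℂ) * x) = fun χ => ev x χ ^ a := by
    intro a
    funext χ
    unfold ev
    rw [← nsmul_eq_mul, AddChar.map_nsmul_eq_pow, Circle.coe_pow]
  have hζ1 : ∀ χ, ‖ev x χ‖ = 1 := fun χ => Circle.norm_coe _
  have hζ5 : ∀ χ, ev x χ ^ 5 = ev (5 * x) χ := fun χ => (congrFun (hev 5) χ).symm
  have hb := bounds P (ev x) (ev (5 * x)) h1 h2 hζ1 hζ5 hκ hm'
  refine ⟨?_, ?_⟩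
  · filter_upwards [hb] with χ hχ
    simp only [pp, hev]
    exact hχ
  · intro Z C hZ hC
    have := planch P (ev x) (ev (5 * x)) h1 h2 hζ1 hζ5 hκ hm' Z C hZ hC
    simp only [pp, hev]
    exact this

end Pool.Agent.Helper38.RG
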